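import Pool.Agent.Helper63.P705.NUM.Goals

/-!
# MP_705522_gt, numeric kernel: packet N9 (evaluation at one point)
-/

namespace Pool.Agent.Helper7.P705

open Pool.Agent.Helper63.P705

/-- `∑_{m<k} d^m B^(k-1-m)` -/
def Pp (B d : ℕ) : ℕ → ℕ
  | 0 => 0
  | k + 1 => B * Pp B d k + d ^ k

theorem Pp_mul (B d k : ℕ) : ((B : ℤ) - d) * Pp B d k = (B : ℤ) ^ k - (d : ℤ) ^ k := by
  induction k with
  | zero => simp [Pp]
  | succ k ih =>
    simp only [Pp]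
    push_cast
    linear_combination (B : ℤ) * ih

/-- the lower digits of the product -/
def lw (B d : ℤ) (n : ℕ → ℤ) : ℕ → ℤ
  | 0 => 0
  | k + 1 => B * lw B d n k + d ^ k * ∑ i ∈ Finset.range k, n i * B ^ i

theorem lw_bound {B d M : ℤ} {n : ℕ → ℤ} (hB : 255 ≤ B) (hd0 : 0 ≤ d) (hd : d ≤ 255) (K : ℕ)
    (h : ∀ i < K, |n i| * d ^ i ≤ M) (hM : 0 ≤ M) :
    |lw B d n K| * B ^ 2 ≤ (K : ℤ) ^ 2 * (255 * M) * B ^ K := by
  have hB0 : 0 ≤ B := by linarith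
  induction K with
  | zero => simp [lw]
  | succ K ih =>
    have ih' := ih (fun i hi => h i (by omega))
    have h2 : |d ^ K * ∑ i ∈ Finset.range K, n i * B ^ i| * B ≤ (K : ℤ) * ((255 * M) * B ^ K) := by
      rw [abs_mul, abs_of_nonneg (pow_nonneg hd0 K)]
      have h3 : |∑ i ∈ Finset.range K, n i * B ^ i| ≤ ∑ i ∈ Finset.range K, |n i * B ^ i| :=
        Finset.abs_sum_le_sum_abs _ _
      calc d ^ K * |∑ i ∈ Finset.range K, n i * B ^ i| * B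
          ≤ d ^ K * (∑ i ∈ Finset.range K, |n i * B ^ i|) * B := by gcongr
        _ = ∑ i ∈ Finset.range K, d ^ K * |n i * B ^ i| * B := by
            rw [Finset.mul_sum, Finset.sum_mul]
        _ ≤ ∑ _i ∈ Finset.range K, (255 * M) * B ^ K := by
            refine Finset.sum_le_sum fun i hi => ?_
            have hiK : i < K := Finset.mem_range.1 hi
            obtain ⟨j, rfl⟩ := Nat.exists_eq_add_of_lt hiK
            have h4 := h i (by omega)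
            rw [abs_mul, abs_of_nonneg (pow_nonneg hB0 i)]
            have h5 : d ^ (i + j + 1) * (|n i| * B ^ i) * B =
                (|n i| * d ^ i) * (d * d ^ j) * (B ^ i * B) := by ring
            have h6 : (255 * M) * B ^ (i + j + 1) = M * (255 * B ^ j) * (B ^ i * B) := by ring
            rw [h5, h6]
            have h7 : d * d ^ j ≤ 255 * B ^ j :=
              mul_le_mul hd (pow_le_pow_left₀ hd0 (hd.trans hB) j) (pow_nonneg hd0 j) (by norm_num)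
            have h8 : 0 ≤ d * d ^ j := mul_nonneg hd0 (pow_nonneg hd0 j)
            exact mul_le_mul_of_nonneg_right (mul_le_mul h4 h7 h8 hM)
              (mul_nonneg (pow_nonneg hB0 i) hB0)
        _ = (K : ℤ) * ((255 * M) * B ^ K) := by
            rw [Finset.sum_const, Finset.card_range, nsmul_eq_mul]
    have h3 : |lw B d n (K + 1)| ≤ B * |lw B d n K| + |d ^ K * ∑ i ∈ Finset.range K, n i * B ^ i| := by
      have := abs_add_le (B * lw B d n K) (d ^ K * ∑ i ∈ Finset.range K, n i * B ^ i)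
      rw [abs_mul B, abs_of_nonneg hB0] at this
      exact this
    have h4 : |lw B d n (K + 1)| * B ^ 2 ≤
        B * (|lw B d n K| * B ^ 2) +
          (|d ^ K * ∑ i ∈ Finset.range K, n i * B ^ i| * B) * B := by
      have := mul_le_mul_of_nonneg_right h3 (pow_nonneg hB0 2)
      refine this.trans (le_of_eq ?_)
      ring
    have h5 := mul_le_mul_of_nonneg_left ih' hB0
    have h6 := mul_le_mul_of_nonneg_right h2 hB0
    have h7 : 0 ≤ (255 * M) * B ^ (K + 1) := by positivity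
    have e1 : B * ((K : ℤ) ^ 2 * (255 * M) * B ^ K) = (K : ℤ) ^ 2 * ((255 * M) * B ^ (K + 1)) := by ring
    have e2 : (K : ℤ) * ((255 * M) * B ^ K) * B = (K : ℤ) * ((255 * M) * B ^ (K + 1)) := by ring
    push_cast
    have e3 : ((K : ℤ) + 1) ^ 2 * (255 * M) * B ^ (K + 1) =
      (K : ℤ) ^ 2 * ((255 * M) * B ^ (K + 1)) + (K : ℤ) * ((255 * M) * B ^ (K + 1)) +
        ((K : ℤ) + 1) * ((255 * M) * B ^ (K + 1)) := by ring
    rw [e3]
    have h8 : 0 ≤ ((K : ℤ) + 1) * ((255 * M) * B ^ (K + 1)) := by positivity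
    linarith

theorem prod_mod (B d : ℕ) (n : ℕ → ℤ) (K : ℕ) : ∃ q : ℤ,
    (∑ i ∈ Finset.range (K + 1), n i * (B : ℤ) ^ i) * Pp B d (K + 1) =
      (∑ i ∈ Finset.range (K + 1), n i * (d : ℤ) ^ i) * (B : ℤ) ^ K + lw B d n (K + 1) +
        (B : ℤ) ^ (K + 1) * q := by
  induction K with
  | zero =>
    refine ⟨0, ?_⟩
    simp [Pp, lw]
  | succ K ih =>
    obtain ⟨q, hq⟩ := ih
    refine ⟨q + n (K + 1) * Pp B d (K + 1), ?_⟩
    rw [Finset.sum_range_succ, Finset.sum_range_succ (fun i => n i * (d : ℤ) ^ i)]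
    have e1 : (Pp B d (K + 1 + 1) : ℤ) = (B : ℤ) * Pp B d (K + 1) + (d : ℤ) ^ (K + 1) := by
      rw [Pp]; push_cast; rfl
    have e2 : lw B d n (K + 1 + 1) = (B : ℤ) * lw B d n (K + 1) +
      (d : ℤ) ^ (K + 1) * ∑ i ∈ Finset.range (K + 1), n i * (B : ℤ) ^ i := rfl
    rw [e1, e2]
    linear_combination (B : ℤ) * hq

theorem Pp_div {B d : ℕ} (hd : d < B) (k : ℕ) : (B ^ k - d ^ k) / (B - d) = Pp B d k := by
  have h := Pp_mul B d k
  have h2 : d ^ k ≤ B ^ k := Nat.pow_le_pow_left hd.le k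
  have h3 : (B - d) * Pp B d k = B ^ k - d ^ k := by
    zify [hd.le, h2]
    exact h
  rw [← h3]
  exact Nat.mul_div_cancel_left _ (by omega)

theorem Pp_le {B d : ℕ} (hd : d < B) (hd2 : 2 * d ≤ B) (k : ℕ) : Pp B d (k + 1) ≤ 2 * B ^ k := by
  have h := Pp_mul B d (k + 1)
  zify
  have h1 : (0 : ℤ) < B - d := by
    have : (d : ℤ) < B := by exact_mod_cast hd
    linarith
  have h2 : (B : ℤ) ≤ 2 * (B - d) := by
    have : (2 : ℤ) * d ≤ B := by exact_mod_cast hd2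
    linarith
  refine le_of_mul_le_mul_left ?_ h1
  rw [h]
  have h3 : (0 : ℤ) ≤ (d : ℤ) ^ (k + 1) := by positivity
  have h4 : (B : ℤ) ^ (k + 1) ≤ ((B : ℤ) - d) * (2 * (B : ℤ) ^ k) := by
    have := mul_le_mul_of_nonneg_right h2 (show (0 : ℤ) ≤ (B : ℤ) ^ k by positivity)
    have e1 : (B : ℤ) ^ (k + 1) = B * (B : ℤ) ^ k := by ring
    have e2 : ((B : ℤ) - d) * (2 * (B : ℤ) ^ k) = 2 * (B - d) * (B : ℤ) ^ k := by ring
    rw [e1, e2]
    exact this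
  linarith

theorem pwd_eq {d : ℕ} (hd : d < 2 ^ 216) : pwd d = Pp (2 ^ 216) d 18 := by
  rw [← Pp_div hd 18, ← pow_mul]
  unfold pwd
  show (1 <<< 3888 - d ^ 18) / (1 <<< 216 - d) = _
  rw [Nat.one_shiftLeft, Nat.one_shiftLeft]

theorem ext0 (W A C D0 D1 D2 : ℕ) :
    (D0 + D1 * W + D2 * (W * W)) / A % C = (D0 + W * (D1 + W * D2)) % (A * C) / A := by
  rw [← Nat.mod_mul_right_div_self]
  congr 2
  ring

theorem ext1 {W : ℕ} (A C D0 D1 D2 : ℕ) (h0 : D0 < W) :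
    (D0 + D1 * W + D2 * (W * W)) / W / A % C = (D1 + W * D2) % (A * C) / A := by
  rw [← Nat.mod_mul_right_div_self]
  congr 2
  have hp : 0 < W := by omega
  have e3 : D0 + D1 * W + D2 * (W * W) = D0 + W * (D1 + W * D2) := by ring
  rw [e3, Nat.add_mul_div_left _ _ hp, Nat.div_eq_of_lt h0, zero_add]

theorem ext2 {W : ℕ} (A C D0 D1 D2 : ℕ) (h0 : D0 < W) (h1 : D1 < W) :
    (D0 + D1 * W + D2 * (W * W)) / (W * W) / A % C = (D2 + W * 0) % (A * C) / A := by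
  rw [← Nat.mod_mul_right_div_self]
  congr 2
  have hp : 0 < W := by omega
  have e3 : D0 + D1 * W + D2 * (W * W) = D0 + W * (D1 + W * D2) := by ring
  rw [e3, ← Nat.div_div_eq_div_mul, Nat.add_mul_div_left _ _ hp, Nat.div_eq_of_lt h0, zero_add,
    Nat.add_mul_div_left _ _ hp, Nat.div_eq_of_lt h1, zero_add, mul_zero, add_zero]

theorem shift_eq (X t : ℕ) :
    Nat.shiftRight X (3824 + 7776 * t) % 2 ^ 43 = X / 2 ^ (7776 * t) / 2 ^ 3824 % 2 ^ 43 := by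
  show X >>> (3824 + 7776 * t) % 2 ^ 43 = _
  rw [Nat.shiftRight_eq_div_pow, Nat.div_div_eq_div_mul, ← pow_add, add_comm]

theorem digit (c : ℕ) (hc : 0 < c) (V low q : ℤ) (hV : |V| < 2 ^ 193) (hl : |low| < c) (Z : ℕ)
    (hZ : (Z : ℤ) = V * c + low + 2 ^ 193 * c + (c * 2 ^ 195) * q) :
    |((Z % (c * 2 ^ 195) / (c * 2 ^ 152) : ℕ) : ℝ) - ((V : ℝ) + 2 ^ 193) / 2 ^ 152| ≤
      1 + 2⁻¹ ^ 100 := by
  have hc' : (0 : ℤ) < c := by exact_mod_cast hc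
  obtain ⟨hV1, hV2⟩ := abs_lt.1 hV
  obtain ⟨hl1, hl2⟩ := abs_lt.1 hl
  set E : ℤ := V * c + low + 2 ^ 193 * c with hE
  have hE0 : 0 ≤ E := by
    have h1 : (-2 ^ 193 + 1) * (c : ℤ) ≤ V * c := mul_le_mul_of_nonneg_right (by linarith) hc'.le
    have h2 : (-2 ^ 193 + 1) * (c : ℤ) = -(2 ^ 193 * c) + c := by ring
    linarith
  have hE1 : E < c * 2 ^ 195 := by
    have h1 : V * (c : ℤ) ≤ (2 ^ 193 - 1) * c := mul_le_mul_of_nonneg_right (by linarith) hc'.le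
    have h2 : (2 ^ 193 - 1) * (c : ℤ) = 2 ^ 193 * c - c := by ring
    have h3 : (c : ℤ) * 2 ^ 195 = 4 * (2 ^ 193 * c) := by ring
    have h4 : (0 : ℤ) < 2 ^ 193 * c := by positivity
    linarith
  have hmod : ((Z % (c * 2 ^ 195) : ℕ) : ℤ) = E := by
    rw [Int.natCast_mod, Nat.cast_mul, Nat.cast_pow, Nat.cast_ofNat, hZ, Int.add_mul_emod_self_left]
    exact Int.emod_eq_of_lt hE0 hE1
  have hdm := Nat.div_add_mod (Z % (c * 2 ^ 195)) (c * 2 ^ 152)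
  have hlt := Nat.mod_lt (Z % (c * 2 ^ 195)) (show 0 < c * 2 ^ 152 by positivity)
  set v := Z % (c * 2 ^ 195) / (c * 2 ^ 152) with hv
  set r := Z % (c * 2 ^ 195) % (c * 2 ^ 152) with hr
  have h1 : ((c : ℝ) * 2 ^ 152) * v + r = V * c + low + 2 ^ 193 * c := by
    have h2 : ((c * 2 ^ 152 * v + r : ℕ) : ℤ) = E := by rw [hdm, hmod]
    rw [hE] at h2
    have h3 : (((c * 2 ^ 152 * v + r : ℕ) : ℤ) : ℝ) = ((V * c + low + 2 ^ 193 * c : ℤ) : ℝ) := by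
      rw [h2]
    push_cast at h3
    norm_num
    linarith
  have hr0 : (0 : ℝ) ≤ r := Nat.cast_nonneg r
  have hr1 : (r : ℝ) < c * 2 ^ 152 := by exact_mod_cast hlt
  have hcr : (0 : ℝ) < c := by exact_mod_cast hc
  have hl1' : -(c : ℝ) < low := by exact_mod_cast hl1
  have hl2' : (low : ℝ) < c := by exact_mod_cast hl2
  have hA : (0 : ℝ) < (c : ℝ) * 2 ^ 152 := by positivity
  have h2 : (v : ℝ) - ((V : ℝ) + 2 ^ 193) / 2 ^ 152 = (low - r) / (c * 2 ^ 152) := by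
    rw [eq_div_iff hA.ne', sub_mul]
    have e1 : ((V : ℝ) + 2 ^ 193) / 2 ^ 152 * (c * 2 ^ 152) = (V + 2 ^ 193) * c := by
      field_simp
    rw [e1]
    linarith
  rw [h2, abs_div, abs_of_pos hA, div_le_iff₀ hA]
  have h3 : |(low : ℝ) - r| ≤ c + c * 2 ^ 152 := by
    rw [abs_le]
    constructor <;> linarith
  refine h3.trans ?_
  have h4 : (1 + 2⁻¹ ^ 100 : ℝ) * (c * 2 ^ 152) = c * 2 ^ 152 + c * (2⁻¹ ^ 100 * 2 ^ 152) := by ring
  have h5 : (1 : ℝ) ≤ 2⁻¹ ^ 100 * 2 ^ 152 := by norm_num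
  rw [h4]
  have := mul_le_mul_of_nonneg_left h5 hcr.le
  linarith

theorem offE_eq : offE = 2 ^ 3865 + 2 ^ 3865 * 2 ^ 7776 + 2 ^ 3865 * (2 ^ 7776 * 2 ^ 7776) := by
  unfold offE
  show 1 <<< 3865 + (1 <<< 11641 + 1 <<< 19417) = _
  rw [Nat.one_shiftLeft, Nat.one_shiftLeft, Nat.one_shiftLeft, ← pow_add, ← pow_add, ← pow_add,
    ← add_assoc]

theorem low_lt {d : ℕ} {n : ℕ → ℤ} (hd : d ≤ 255) (h : ∀ i < 18, |n i| * (d : ℤ) ^ i ≤ 2 ^ 196) :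
    |lw ((2 ^ 216 : ℕ) : ℤ) d n 18| < (((2 ^ 216) ^ 17 : ℕ) : ℤ) := by
  have hB : (255 : ℤ) ≤ ((2 ^ 216 : ℕ) : ℤ) := by
    rw [Nat.cast_pow, Nat.cast_ofNat]; norm_num
  have h1 := lw_bound hB (Int.natCast_nonneg d) (by exact_mod_cast hd) 18 h (by positivity)
  have hK : (18 : ℤ) ^ 2 * (255 * 2 ^ 196) < ((2 ^ 216 : ℕ) : ℤ) := by
    rw [Nat.cast_pow, Nat.cast_ofNat]; norm_num
  generalize hBB : ((2 ^ 216 : ℕ) : ℤ) = B at h1 hK hB ⊢
  have e : (((2 ^ 216) ^ 17 : ℕ) : ℤ) = B ^ 17 := by rw [Nat.cast_pow, hBB]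
  rw [e]
  by_contra hcon
  have h2 := mul_le_mul_of_nonneg_right (not_lt.1 hcon) (show (0 : ℤ) ≤ B ^ 2 by positivity)
  have hB0 : (0 : ℤ) < B := by linarith
  have h3 : B * B ^ 18 ≤ ((18 : ℤ) ^ 2 * (255 * 2 ^ 196)) * B ^ 18 := by
    have e2 : B * B ^ 18 = B ^ 17 * B ^ 2 := by ring
    rw [e2]
    exact h2.trans h1
  have h4 := le_of_mul_le_mul_right h3 (show (0 : ℤ) < B ^ 18 by positivity)
  linarith

theorem n9 : N9 := by
  intro n N d hd h1 h2 h3 t ht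
  -- abbreviations
  have hdB : d < 2 ^ 216 := lt_of_le_of_lt hd (by norm_num)
  set P := Pp (2 ^ 216) d 18 with hP
  have hPle : P ≤ 2 ^ 3673 := by
    have h4 := Pp_le hdB (by omega) 17
    rw [← pow_mul] at h4
    have e : 2 * 2 ^ (216 * 17) = 2 ^ 3673 := by rw [← pow_succ']
    rw [← e]
    exact h4
  let S : ℕ → ℤ := fun t => ∑ i ∈ Finset.range 18, n t i * 2 ^ (216 * i)
  have hSnn : ∀ t, 0 ≤ S t % 2 ^ 3888 := fun t => Int.emod_nonneg _ (by positivity)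
  let m : ℕ → ℕ := fun t => (S t % 2 ^ 3888).toNat
  have hm : ∀ t, (m t : ℤ) = S t % 2 ^ 3888 := fun t => Int.toNat_of_nonneg (hSnn t)
  have hmlt : ∀ t, m t < 2 ^ 3888 := by
    intro t
    have h4 : (m t : ℤ) < ((2 ^ 3888 : ℕ) : ℤ) := by
      rw [hm, Nat.cast_pow, Nat.cast_ofNat]
      exact Int.emod_lt_of_pos _ (by positivity)
    exact_mod_cast h4
  let D : ℕ → ℕ := fun t => m t * P + 2 ^ 3865
  have hDlt : ∀ t, D t < 2 ^ 7776 := by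
    intro t
    have h4 : m t * P ≤ 2 ^ 3888 * 2 ^ 3673 := Nat.mul_le_mul (hmlt t).le hPle
    have h5 : 2 ^ 3888 * 2 ^ 3673 = 2 ^ 7561 := by rw [← pow_add]
    have h6 : (2 : ℕ) ^ 7561 < 2 ^ 7775 := pow_lt_pow_right₀ (by norm_num) (by norm_num)
    have h7 : (2 : ℕ) ^ 3865 < 2 ^ 7775 := pow_lt_pow_right₀ (by norm_num) (by norm_num)
    have h8 : (2 : ℕ) ^ 7776 = 2 ^ 7775 * 2 := pow_succ _ _
    show m t * P + 2 ^ 3865 < 2 ^ 7776
    rw [h8]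
    rw [h5] at h4
    generalize 2 ^ 7561 = x1 at *
    generalize 2 ^ 7775 = x2 at *
    generalize 2 ^ 3865 = x3 at *
    omega
  have hN : N = m 0 + m 1 * 2 ^ 7776 + m 2 * (2 ^ 7776 * 2 ^ 7776) := by
    have h4 : (N : ℤ) = ((m 0 + m 1 * 2 ^ 7776 + m 2 * (2 ^ 7776 * 2 ^ 7776) : ℕ) : ℤ) := by
      rw [h3, Finset.sum_range_succ, Finset.sum_range_succ, Finset.sum_range_succ, Finset.sum_range_zero]
      simp only [Nat.cast_add, Nat.cast_mul, Nat.cast_pow, Nat.cast_ofNat, hm, S]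
      rw [Nat.mul_zero, pow_zero, mul_one, Nat.mul_one, zero_add, ← pow_add]
    exact_mod_cast h4
  have hX : Nat.add (Nat.mul N (pwd d)) offE = D 0 + D 1 * 2 ^ 7776 + D 2 * (2 ^ 7776 * 2 ^ 7776) := by
    show N * pwd d + offE = _
    rw [pwd_eq hdB, offE_eq, hN]
    show _ = m 0 * P + 2 ^ 3865 + (m 1 * P + 2 ^ 3865) * 2 ^ 7776 +
      (m 2 * P + 2 ^ 3865) * (2 ^ 7776 * 2 ^ 7776)
    generalize 2 ^ 7776 = x1
    generalize 2 ^ 3865 = x3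
    generalize m 0 = m0
    generalize m 1 = m1
    generalize m 2 = m2
    ring
  have eA : (2 : ℕ) ^ 3824 = (2 ^ 216) ^ 17 * 2 ^ 152 := by rw [← pow_mul, ← pow_add]
  have eC : (2 : ℕ) ^ 3824 * 2 ^ 43 = (2 ^ 216) ^ 17 * 2 ^ 195 := by
    rw [← pow_mul, ← pow_add, ← pow_add]
  have key : ∃ Y : ℕ, Nat.shiftRight (Nat.add (Nat.mul N (pwd d)) offE) (3824 + 7776 * t) % 2 ^ 43 =
      (D t + 2 ^ 7776 * Y) % ((2 ^ 216) ^ 17 * 2 ^ 195) / ((2 ^ 216) ^ 17 * 2 ^ 152) := by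
    rw [shift_eq, hX, ← eA, ← eC]
    interval_cases t
    · refine ⟨D 1 + 2 ^ 7776 * D 2, ?_⟩
      rw [Nat.mul_zero, pow_zero, Nat.div_one]
      exact ext0 _ _ _ _ _ _
    · refine ⟨D 2, ?_⟩
      rw [Nat.mul_one]
      exact ext1 _ _ _ _ _ (hDlt 0)
    · refine ⟨0, ?_⟩
      have e : (2 : ℕ) ^ (7776 * 2) = 2 ^ 7776 * 2 ^ 7776 := by rw [← pow_add]
      rw [e]
      exact ext2 _ _ _ _ _ (hDlt 0) (hDlt 1)
  obtain ⟨Y, hY⟩ := key
  rw [hY]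
  obtain ⟨q, hq⟩ := prod_mod (2 ^ 216) d (n t) 17
  have hlow := low_lt hd (h1 t ht)
  have hV := h2 t ht
  set V : ℤ := ∑ i ∈ Finset.range 18, n t i * (d : ℤ) ^ i with hVdef
  -- the congruence
  have e216 : ((2 ^ 216 : ℕ) : ℤ) = 2 ^ 216 := by rw [Nat.cast_pow, Nat.cast_ofNat]
  have hSt : ∑ i ∈ Finset.range (17 + 1), n t i * ((2 ^ 216 : ℕ) : ℤ) ^ i = S t := by
    refine Finset.sum_congr rfl fun i _ => ?_
    rw [e216, ← pow_mul]
  rw [hSt] at hq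
  have hdm := Int.emod_add_mul_ediv (S t) (2 ^ 3888)
  have e3888 : (2 : ℤ) ^ 3888 = ((((2 ^ 216) ^ 17 : ℕ) : ℤ) * 2 ^ 195) * 2 ^ 21 := by
    rw [Nat.cast_pow, e216, ← pow_mul, ← pow_add, ← pow_add]
  have e7776 : (2 : ℤ) ^ 7776 = ((((2 ^ 216) ^ 17 : ℕ) : ℤ) * 2 ^ 195) * 2 ^ 3909 := by
    rw [Nat.cast_pow, e216, ← pow_mul, ← pow_add, ← pow_add]
  have e3865 : (2 : ℤ) ^ 3865 = 2 ^ 193 * (((2 ^ 216) ^ 17 : ℕ) : ℤ) := by
    rw [Nat.cast_pow, e216, ← pow_mul, ← pow_add]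
  have eB18 : ((2 ^ 216 : ℕ) : ℤ) ^ (17 + 1) = ((((2 ^ 216) ^ 17 : ℕ) : ℤ) * 2 ^ 195) * 2 ^ 21 := by
    rw [← e3888, e216, ← pow_mul]
  have eB17 : ((2 ^ 216 : ℕ) : ℤ) ^ 17 = (((2 ^ 216) ^ 17 : ℕ) : ℤ) := (Nat.cast_pow _ _).symm
  refine digit ((2 ^ 216) ^ 17) (by positivity) V (lw ((2 ^ 216 : ℕ) : ℤ) d (n t) 18)
    (2 ^ 21 * q - 2 ^ 21 * (S t / 2 ^ 3888) * P + 2 ^ 3909 * Y) hV hlow _ ?_
  have hD : ((D t + 2 ^ 7776 * Y : ℕ) : ℤ) = (S t % 2 ^ 3888) * P + 2 ^ 3865 + 2 ^ 7776 * Y := by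
    show ((m t * P + 2 ^ 3865 + 2 ^ 7776 * Y : ℕ) : ℤ) = _
    rw [Nat.cast_add, Nat.cast_add, Nat.cast_mul, Nat.cast_mul, hm, Nat.cast_pow, Nat.cast_pow,
      Nat.cast_ofNat]
  rw [hD]
  have hq' : S t * (P : ℤ) = V * (((2 ^ 216) ^ 17 : ℕ) : ℤ) + lw ((2 ^ 216 : ℕ) : ℤ) d (n t) 18 +
      (((((2 ^ 216) ^ 17 : ℕ) : ℤ) * 2 ^ 195) * 2 ^ 21) * q := by
    rw [← eB18, ← eB17]
    exact hq
  have hdm' : S t % 2 ^ 3888 = S t - (((((2 ^ 216) ^ 17 : ℕ) : ℤ) * 2 ^ 195) * 2 ^ 21) *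
      (S t / 2 ^ 3888) := by
    rw [← e3888]
    linarith
  rw [hdm', e3865, e7776]
  generalize (((2 ^ 216) ^ 17 : ℕ) : ℤ) = c at *
  generalize (2 : ℤ) ^ 195 = x1 at *
  generalize (2 : ℤ) ^ 21 = x2 at *
  generalize (2 : ℤ) ^ 3909 = x3 at *
  generalize (2 : ℤ) ^ 193 = x4 at *
  linear_combination hq'

end Pool.Agent.Helper7.P705
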